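import Pool.Agent.Q258.Slir.Main

/-!
# The strong locally irregular chromatic index is at most 58

A digraph is a finite vertex type `V` with a finite set `A` of ordered pairs of distinct vertices.
`balDeg B v` is the balanced degree of `v` in the arc set `B`.
-/

namespace Pool.Agent.Results.MP_5851c7_co.ConstantBound

/-- Number of arcs of `B` leaving `v` minus the number of arcs of `B` entering `v`. -/
def balDeg {V : Type*} [DecidableEq V] (B : Finset (V × V)) (v : V) : ℤ :=
  ((B.filter fun a => a.1 = v).card : ℤ) - ((B.filter fun a => a.2 = v).card : ℤ)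

/-- `B` is strong locally irregular. -/
def StrongLocallyIrregular {V : Type*} [DecidableEq V] (B : Finset (V × V)) : Prop :=
  ∀ u v : V, (u, v) ∈ B → balDeg B u ≠ balDeg B v

/-- `c` is a strong locally irregular colouring of the arc set `A` with `k` colours. -/
def IsColoring {V : Type*} [DecidableEq V] (A : Finset (V × V)) {k : ℕ} (c : V × V → Fin k) :
    Prop :=
  ∀ i : Fin k, StrongLocallyIrregular (A.filter fun a => c a = i)

/-- The strong locally irregular chromatic index. -/
noncomputable def slir {V : Type*} [DecidableEq V] (A : Finset (V × V)) : ℕ :=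
  sInf {k : ℕ | ∃ c : V × V → Fin k, IsColoring A c}

open Q258.Slir in
/-- Every digraph has a strong locally irregular colouring with 58 colours. -/
theorem result : ∀ (V : Type*) [Fintype V] [DecidableEq V] (A : Finset (V × V)),
    (∀ u v : V, (u, v) ∈ A → u ≠ v) →
      (∃ c : V × V → Fin 58, IsColoring A c) ∧ slir A ≤ 58 := by
  intro V _ _ A hA
  have h : ∃ c : V × V → Fin 58, IsColoring A c := by
    obtain ⟨c, hc⟩ := general (fun u v => (u, v) ∈ A) (fun v hv => hA v v hv rfl)
    refine ⟨fun a => c a.1 a.2, fun i => ?_⟩
    have hb : ∀ v, balDeg (A.filter fun a => c a.1 a.2 = i) v =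
        bal (fun u v => (u, v) ∈ A ∧ c u v = i) v := by
      intro v
      unfold balDeg bal outd ind cnt
      congr 2
      · refine Finset.card_bij (fun a _ => a.2) ?_ ?_ ?_
        · rintro ⟨a, b⟩ h
          simp only [Finset.mem_filter] at h
          obtain ⟨⟨h1, h2⟩, rfl⟩ := h
          simp [h1, h2]
        · rintro ⟨a, b⟩ h ⟨a', b'⟩ h' h3
          simp only [Finset.mem_filter] at h h'
          obtain ⟨_, rfl⟩ := h
          obtain ⟨_, rfl⟩ := h'
          simp only at h3
          rw [h3]
        · intro w hw
          simp only [Finset.mem_filter, Finset.mem_univ, true_and] at hw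
          exact ⟨(v, w), by simp [hw.1, hw.2], rfl⟩
      · refine Finset.card_bij (fun a _ => a.1) ?_ ?_ ?_
        · rintro ⟨a, b⟩ h
          simp only [Finset.mem_filter] at h
          obtain ⟨⟨h1, h2⟩, rfl⟩ := h
          simp [h1, h2]
        · rintro ⟨a, b⟩ h ⟨a', b'⟩ h' h3
          simp only [Finset.mem_filter] at h h'
          obtain ⟨_, rfl⟩ := h
          obtain ⟨_, rfl⟩ := h'
          simp only at h3
          rw [h3]
        · intro w hw
          simp only [Finset.mem_filter, Finset.mem_univ, true_and] at hw
          exact ⟨(w, v), by simp [hw.1, hw.2], rfl⟩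
    intro u v huv
    rw [hb, hb]
    refine hc i u v ?_
    simpa using huv
  exact ⟨h, Nat.sInf_le h⟩

end Pool.Agent.Results.MP_5851c7_co.ConstantBound
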